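import Pool.Agent.TDV.Stmts

/-!
# Squad TDV, module VLM: arithmetic and computability of `vl`, `mu`, `colp`
-/

set_option autoImplicit false

namespace Pool.Agent.TDV.H39

open Pool.Agent.TDV

theorem vl_eq (e m : ℕ) : vl (2 ^ e * (2 * m + 1)) = e := by
  have hlt : e < 2 ^ e * (2 * m + 1) + 1 := by
    have h1 : e < 2 ^ e := Nat.lt_two_pow_self
    have h2 : 2 ^ e ≤ 2 ^ e * (2 * m + 1) := Nat.le_mul_of_pos_right _ (by omega)
    omega
  unfold vl
  rw [List.findIdx_eq (by rw [List.length_range]; exact hlt)]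
  constructor
  · rw [List.getElem_range, decide_eq_true_eq, Nat.mul_div_cancel_left _ (by positivity)]
    omega
  · intro j hj
    rw [List.getElem_range, decide_eq_false_iff_not]
    obtain ⟨k, rfl⟩ := Nat.exists_eq_add_of_lt hj
    have h1 : 2 ^ (j + k + 1) * (2 * m + 1) = 2 ^ j * (2 * (2 ^ k * (2 * m + 1))) := by
      rw [pow_succ, pow_add]
      ring
    rw [h1, Nat.mul_div_cancel_left _ (by positivity)]
    omega

theorem mu_eq (e m : ℕ) : mu (2 ^ e * (2 * m + 1)) = m := by
  unfold mu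
  rw [vl_eq, Nat.mul_div_cancel_left _ (by positivity)]
  omega

theorem exists_form (n : ℕ) (hn : n ≠ 0) : ∃ e m, n = 2 ^ e * (2 * m + 1) := by
  obtain ⟨e, k, hk, h⟩ := Nat.exists_eq_two_pow_mul_odd hn
  obtain ⟨m, rfl⟩ := hk
  exact ⟨e, m, h⟩

theorem mu_le (n : ℕ) : mu n ≤ n := (Nat.div_le_self _ _).trans (Nat.div_le_self _ _)

theorem prim_pow : Primrec fun n : ℕ => 2 ^ n := by
  have h : Primrec (Nat.rec (1 : ℕ) (fun _ y => 2 * y) : ℕ → ℕ) :=
    Primrec.nat_rec₁ 1 (Primrec.nat_double.comp Primrec.snd).to₂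
  refine h.of_eq fun n => ?_
  induction n with
  | zero => rfl
  | succ n ih =>
    change 2 * (Nat.rec (1 : ℕ) (fun _ y => 2 * y) n : ℕ) = 2 ^ (n + 1)
    rw [ih, pow_succ]
    ring

theorem prim_vl : Primrec vl := by
  have h1 : Primrec fun n : ℕ => List.range (n + 1) := Primrec.list_range.comp Primrec.succ
  have h2 : Primrec₂ fun (n e : ℕ) => ((n / 2 ^ e) % 2 == 1) := by
    refine Primrec.beq.comp ?_ (Primrec.const 1)
    exact Primrec.nat_mod.comp
      (Primrec.nat_div.comp Primrec.fst (prim_pow.comp Primrec.snd)) (Primrec.const 2)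
  refine (Primrec.list_findIdx h1 h2).of_eq fun n => ?_
  rfl

theorem prim_mu : Primrec mu :=
  Primrec.nat_div.comp (Primrec.nat_div.comp Primrec.id (prim_pow.comp prim_vl)) (Primrec.const 2)

theorem prim_colp : Primrec colp := by
  have h1 : Primrec fun p : List Bool => List.range (mu p.length) :=
    Primrec.list_range.comp (prim_mu.comp Primrec.list_length)
  refine Primrec.list_map h1 ?_
  refine (Primrec.list_getD false).comp Primrec.fst ?_
  refine Primrec.nat_mul.comp (prim_pow.comp (prim_vl.comp (Primrec.list_length.comp Primrec.fst)))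
    ?_
  exact Primrec.nat_double_succ.comp Primrec.snd

theorem vlm : VlmStmt := by
  refine ⟨fun e m => ⟨vl_eq e m, mu_eq e m⟩, ?_, ?_, ?_, mu_le, ?_, prim_vl, prim_mu, prim_colp,
    prim_pow⟩
  · intro n hn
    obtain ⟨e, m, rfl⟩ := exists_form n hn
    rw [vl_eq, mu_eq]
  · intro n hn
    obtain ⟨e, m, rfl⟩ := exists_form n hn
    rw [mu_eq, ← mul_assoc, ← pow_succ', mu_eq]
  · intro n
    have := mu_eq 0 n
    rwa [pow_zero, one_mul] at this
  · intro n hn
    obtain ⟨e, m, rfl⟩ := exists_form n hn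
    rw [mu_eq]
    have h2 : 1 * (2 * m + 1) ≤ 2 ^ e * (2 * m + 1) := Nat.mul_le_mul_right _ Nat.one_le_two_pow
    omega

end Pool.Agent.TDV.H39
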